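import Pool.Agent.H8.TD.Targets

/-!
# The norm is the product of the conjugates (row NVE)
-/

set_option autoImplicit false

open scoped nonZeroDivisors
open Pool.Agent.H8.TD

namespace Pool.Agent.H63.TD

theorem pf_NVE : T_NVE := by
  intro κ R Ω _ _ _ _ _ _ _ _ _ hR hΩ
  classical
  haveI f1 : FaithfulSMul (Polynomial κ) R := (faithfulSMul_iff_algebraMap_injective _ _).mpr hR
  haveI f2 : FaithfulSMul (Polynomial κ) Ω := (faithfulSMul_iff_algebraMap_injective _ _).mpr hΩ
  haveI f3 : FaithfulSMul (Polynomial κ) (FractionRing R) := by
    rw [faithfulSMul_iff_algebraMap_injective, IsScalarTower.algebraMap_eq (Polynomial κ) R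
      (FractionRing R)]
    exact (IsFractionRing.injective R (FractionRing R)).comp hR
  letI a1 : Algebra (FractionRing (Polynomial κ)) (FractionRing R) :=
    FractionRing.liftAlgebra (Polynomial κ) (FractionRing R)
  letI a2 : Algebra (FractionRing (Polynomial κ)) Ω := FractionRing.liftAlgebra (Polynomial κ) Ω
  haveI t1 : IsScalarTower (Polynomial κ) (FractionRing (Polynomial κ)) (FractionRing R) :=
    FractionRing.isScalarTower_liftAlgebra (Polynomial κ) (FractionRing R)
  haveI t2 : IsScalarTower (Polynomial κ) (FractionRing (Polynomial κ)) Ω :=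
    FractionRing.isScalarTower_liftAlgebra (Polynomial κ) Ω
  haveI i1 : IsLocalization (Algebra.algebraMapSubmonoid R (Polynomial κ)⁰) (FractionRing R) :=
    inferInstance
  haveI m1 : Module.Finite (FractionRing (Polynomial κ)) (FractionRing R) :=
    Module.Finite.of_isLocalization (Polynomial κ) R (Polynomial κ)⁰
  haveI tf : Module.IsTorsionFree (Polynomial κ) R := inferInstance
  haveI mf : Module.Free (Polynomial κ) R := Module.free_of_finite_type_torsion_free'
  haveI cz : CharZero (FractionRing (Polynomial κ)) := inferInstance
  haveI sep : Algebra.IsSeparable (FractionRing (Polynomial κ)) (FractionRing R) := inferInstance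
  refine ⟨Finset.univ.image (fun σ : FractionRing R →ₐ[FractionRing (Polynomial κ)] Ω =>
    (σ.restrictScalars (Polynomial κ)).comp
      (IsScalarTower.toAlgHom (Polynomial κ) R (FractionRing R))), fun S => ?_⟩
  rw [Finset.prod_image]
  · have h1 := Algebra.norm_localization (Polynomial κ) (Polynomial κ)⁰
      (Rₘ := FractionRing (Polynomial κ)) (Sₘ := FractionRing R) S
    have h2 := Algebra.norm_eq_prod_embeddings (FractionRing (Polynomial κ)) Ω
      (algebraMap R (FractionRing R) S)
    rw [h1, ← IsScalarTower.algebraMap_apply] at h2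
    exact h2
  · intro σ _ τ _ h
    apply AlgHom.ext
    intro x
    have h3 : (σ : FractionRing R →+* Ω).comp (algebraMap R (FractionRing R)) =
        (τ : FractionRing R →+* Ω).comp (algebraMap R (FractionRing R)) := by
      ext r
      exact DFunLike.congr_fun h r
    have h4 := IsLocalization.ringHom_ext R⁰ h3
    exact DFunLike.congr_fun h4 x

end Pool.Agent.H63.TD
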